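import Pool.Agent.E8helper2.PS.Stm

set_option autoImplicit false

namespace Pool.Agent.E8helper55.PS

open Finset Pool.Agent.E8helper2.PS

theorem nexp (N : ℕ) (κ : ℝ) : ‖Complex.exp (Complex.I * N * (κ : ℂ))‖ = 1 := by
  have h : Complex.I * (N : ℂ) * (κ : ℂ) = (((N : ℝ) * κ : ℝ) : ℂ) * Complex.I := by
    push_cast
    ring
  rw [h, Complex.norm_exp_ofReal_mul_I]

theorem t_WIN : S_WIN := by
  intro a M κ hW N
  refine ⟨fun p q => ?_, fun p q => ?_⟩
  · have h1 : Complex.exp (Complex.I * N * (κ : ℂ)) *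
        ∑ j ∈ Ico p q, sh a N j * Complex.exp (Complex.I * j * (κ : ℂ)) =
        ∑ n ∈ Ico (p + N) (q + N), a n * Complex.exp (Complex.I * n * (κ : ℂ)) := by
      rw [← Finset.sum_Ico_add' (fun n : ℕ => a n * Complex.exp (Complex.I * n * (κ : ℂ))) p q N,
        Finset.mul_sum]
      apply Finset.sum_congr rfl
      intro j _
      have h2 : Complex.exp (Complex.I * ((j + N : ℕ) : ℂ) * (κ : ℂ)) =
          Complex.exp (Complex.I * N * (κ : ℂ)) * Complex.exp (Complex.I * j * (κ : ℂ)) := by
        rw [← Complex.exp_add]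
        congr 1
        push_cast
        ring
      rw [h2, sh, add_comm N j]
      ring
    have h3 := hW (p + N) (q + N)
    rw [← h1, norm_mul, nexp, one_mul] at h3
    exact h3
  · have h1 : Complex.exp (Complex.I * N * (κ : ℂ)) *
        ∑ j ∈ Ico p q, rv a N j * Complex.exp (Complex.I * j * ((-κ : ℝ) : ℂ)) =
        ∑ n ∈ Ico (N + 1 - q) (N + 1 - max p 1), a n * Complex.exp (Complex.I * n * (κ : ℂ)) := by
      have h4 : ∀ j : ℕ, rv a N j * Complex.exp (Complex.I * j * ((-κ : ℝ) : ℂ)) =
          if 1 ≤ j ∧ j ≤ N then a (N - j) * Complex.exp (Complex.I * j * ((-κ : ℝ) : ℂ)) else 0 := by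
        intro j
        unfold rv
        split_ifs <;> simp
      rw [Finset.sum_congr rfl (fun j _ => h4 j), ← Finset.sum_filter, Finset.mul_sum]
      refine Finset.sum_nbij' (fun j => N - j) (fun n => N - n) ?_ ?_ ?_ ?_ ?_
      · intro j hj
        rw [mem_filter, mem_Ico] at hj
        rw [mem_Ico]
        obtain ⟨⟨a1, a2⟩, a3, a4⟩ := hj
        omega
      · intro n hn
        rw [mem_Ico] at hn
        rw [mem_filter, mem_Ico]
        obtain ⟨a1, a2⟩ := hn
        omega
      · intro j hj
        rw [mem_filter, mem_Ico] at hj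
        obtain ⟨⟨a1, a2⟩, a3, a4⟩ := hj
        show N - (N - j) = j
        omega
      · intro n hn
        rw [mem_Ico] at hn
        obtain ⟨a1, a2⟩ := hn
        show N - (N - n) = n
        omega
      · intro j hj
        rw [mem_filter, mem_Ico] at hj
        obtain ⟨⟨a1, a2⟩, a3, a4⟩ := hj
        have h5 : Complex.exp (Complex.I * ((N - j : ℕ) : ℂ) * (κ : ℂ)) =
            Complex.exp (Complex.I * N * (κ : ℂ)) *
              Complex.exp (Complex.I * j * ((-κ : ℝ) : ℂ)) := by
          rw [← Complex.exp_add]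
          congr 1
          rw [Nat.cast_sub a4]
          push_cast
          ring
        show _ = a (N - j) * Complex.exp (Complex.I * ((N - j : ℕ) : ℂ) * (κ : ℂ))
        rw [h5]
        ring
    have h3 := hW (N + 1 - q) (N + 1 - max p 1)
    rw [← h1, norm_mul, nexp, one_mul] at h3
    exact h3

end Pool.Agent.E8helper55.PS
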